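import Mathlib
import Pool.Agent.helper67.ND.Defs
import Pool.Agent.helper92.LC.Defs
import Pool.Agent.helper92.LI.Defs
import Pool.Agent.helper92.LI.Final2

/-!
# Lê-Yomdin (superisolated) surface singularities with arbitrary tangent cone

`f ∘ L = f0 + h + ...` is a germ at the origin of `ℂ ^ 3`, `L` an invertible matrix; its initial form
with respect to the positive weights `w` is `f0`, of degree `N`, and the next term is `h`, of degree
`N + k`.  Let `(q, 1)` be a point with `h (q, 1) ≠ 0`.  Every rupture component `E` of the embedded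
resolution of the germ at `q` of the curve `f0 (., 1) = 0`, with numerical data `M = N_E`, `ν = ν_E`,
gives a root of the Bernstein-Sato polynomial of `f`.

For `w = (1, 1, 1)`, `k = 1` and `h ≠ 0` at the singular points of the (arbitrary reduced) projective
curve `f0 = 0`, `f` is superisolated.
-/

set_option autoImplicit false

namespace Pool.Agent.Results.MP_6163c8_ag.AnyTangentCone

open MvPolynomial Filter Topology Asymptotics
open Pool.Agent.helper67.ND Pool.Agent.helper92.LC Pool.Agent.helper92.LI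

/-- `E` is a rupture component of the embedded resolution of the germ at the origin of the plane
curve `F = 0`, and `N_E = M`, `ν_E = ν`.

`Ψ` is the local expression of the composition of the blow-ups of points which leads to the
infinitely near point `O'` whose blow-up gives `E`; its Jacobian determinant is `u ^ A v ^ B` times a
unit.  The initial form `g` of `F ∘ Ψ` has degree `M` and at least three different linear factors: the
total transform of `F = 0` has at least three tangents at `O'`.  Nodes are also included: `O'` is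
the origin itself and `g` is the product of two different linear forms. -/
def Rupture (F : MvPolynomial (Fin 2) ℂ) (M ν : ℕ) : Prop :=
  ∃ (Ψ : Fin 2 → MvPolynomial (Fin 2) ℂ) (A B : ℕ) (g : MvPolynomial (Fin 2) ℂ),
    Near Ψ A B ∧ ν = A + B + 2 ∧ g.IsHomogeneous M ∧ g ≠ 0 ∧ Ord (M + 1) (aeval Ψ F - g) ∧
    ((∃ l : Fin 3 → MvPolynomial (Fin 2) ℂ, (∀ i, (l i).IsHomogeneous 1) ∧ (∀ i, l i ∣ g) ∧
        ∀ i j, i ≠ j → ¬ l i ∣ l j) ∨
      (A + B = 0 ∧ ∃ l : Fin 2 → MvPolynomial (Fin 2) ℂ, (∀ i, (l i).IsHomogeneous 1) ∧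
        g = l 0 * l 1 ∧ ¬ l 0 ∣ l 1))

/-- Every rupture component over every point `(q, 1)`, `h (q, 1) ≠ 0`, of the tangent cone gives a
root of the Bernstein-Sato polynomial.  The condition `hex` is empty if `w = (1, 1, 1)`, `N ≥ 2`. -/
theorem result {w : Fin 3 → ℕ} (hw : ∀ i, 1 ≤ w i) {N k : ℕ} (hN : 1 ≤ N) (hk : 1 ≤ k)
    {f0 h : MvPolynomial (Fin 3) ℂ}
    (hf0 : f0.IsWeightedHomogeneous w N) (hh : h.IsWeightedHomogeneous w (N + k))
    {f : (Fin 3 → ℂ) → ℂ} (hf : AnalyticAt ℂ f 0)
    {L : Matrix (Fin 3) (Fin 3) ℂ} (hL : L.det ≠ 0)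
    (hO : ∀ z : Fin 3 → ℂ,
      (fun t : ℂ => f (L.mulVec fun i => t ^ w i * z i) -
        (t ^ N * eval z f0 + t ^ (N + k) * eval z h)) =O[𝓝 0] (fun t : ℂ => ‖t‖ ^ (N + k + 1)))
    {q : Fin 2 → ℂ} (hq : eval (pt q) h ≠ 0)
    {M ν : ℕ} (hE : Rupture (tr q (dh f0)) M ν)
    (hex : N + k < ∑ i, w i → ∀ j : ℕ, 1 ≤ j →
      (∑ i, w i) * M ≠ N * ν + j * ((N + k) * M))
    {b : Polynomial ℂ} (hb : IsBernstein f b) :
    b.eval (-(((∑ i, w i) * M + k * ν : ℕ) : ℂ) / ((N + k) * M : ℕ)) = 0 :=
  rupture_root hw hN hk hf0 hh hf hL hO hq hE hex hb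

end Pool.Agent.Results.MP_6163c8_ag.AnyTangentCone
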