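import Mathlib
import Pool.Agent.helper67.ND.Defs
import Pool.Agent.helper92.LC.Defs
import Pool.Agent.helper92.LW.WFinal

/-!
# Lê-Yomdin germs whose weighted tangent cone has isolated weighted homogeneous singularities

`f = f0 + h + ...` is a germ at the origin of `ℂ ^ n`, `n = m + 1 ≥ 2`; its initial form with respect
to the positive weights `a` is `f0`, of degree `N`, and the next term is `h`, of degree `N + k`.
The section of `f0` by `x_n = 0` has an isolated critical point, so that the hypersurface `f0 = 0` of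
the weighted projective space has only isolated singularities, all in the chart `x_n = 1`; they are
assumed to be weighted homogeneous (in suitable analytic coordinates), and `h` does not vanish there.
For `a = 1` these are the Lê-Yomdin singularities, for `a = 1`, `k = 1` the superisolated ones.
-/

set_option autoImplicit false

namespace Pool.Agent.Results.MP_6163c8_ag.IsolatedCone

open MvPolynomial Filter Topology Asymptotics
open Pool.Agent.helper67.ND Pool.Agent.helper67.IF
open Pool.Agent.helper92.LC Pool.Agent.helper92.LW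

/-- The candidate poles `-1`, `-|a| / N` and `-(|a| + k |w_q|) / (N + k)` (`|w_q| = ∑ α_i / M`, `q` a
singular point). -/
def Candidates {m : ℕ} (a : Fin (m + 1) → ℕ) (N k : ℕ) (f0 : MvPolynomial (Fin (m + 1)) ℂ)
    (α : (Fin m → ℂ) → Fin m → ℕ) (M : (Fin m → ℂ) → ℕ) : Set ℂ :=
  {s | s = -1 ∨ s = -((∑ i, a i : ℕ) : ℂ) / N ∨
    ∃ q, Sing f0 q ∧ s = -(((∑ i, a i) * M q + k * ∑ i, α q i : ℕ) : ℂ) / ((N + k) * M q : ℕ)}

/-- All candidate poles are roots of the Bernstein-Sato polynomial.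

* `hsec`: `∂_1 f0, ..., ∂_{n-1} f0` have no common zero but the origin on `x_n = 0`;
* `hW`: at every critical point `(q, 1)` of `f0` the polynomial `f0 (., 1)` is analytically
  equivalent to the weighted homogeneous polynomial `g q` (weights `α q`, degree `M q`, isolated
  critical point);
* `hNR`: `|a| / N + j`, `j ≥ 1`, is not a spectral number of `g q`;
* `hex`: `(|a| - N |w_q|) / (N + k)` is not a positive integer;
* `hV`: no vector field of weight `0` which kills `f0` has nonzero divergence. -/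
theorem result {m : ℕ} (hm : 1 ≤ m) {a : Fin (m + 1) → ℕ} (ha : ∀ i, 1 ≤ a i) {N k : ℕ}
    (haN : ∀ i, a i < N) (hk : 1 ≤ k) {f0 h : MvPolynomial (Fin (m + 1)) ℂ}
    (hf0 : f0.IsWeightedHomogeneous a N)
    (hsec : ∀ z : Fin (m + 1) → ℂ, z (Fin.last m) = 0 →
      (∀ i : Fin m, eval z (pderiv i.castSucc f0) = 0) → z = 0)
    (α : (Fin m → ℂ) → Fin m → ℕ) (M : (Fin m → ℂ) → ℕ)
    (g : (Fin m → ℂ) → MvPolynomial (Fin m) ℂ)
    (hW : ∀ q, Sing f0 q → WH (dh f0) q (α q) (M q) (g q))
    (hNR : ∀ q, Sing f0 q → NR (∑ i, a i) N (α q) (M q) (g q))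
    (hex : ∀ q, Sing f0 q → ∀ j : ℕ, 1 ≤ j →
      (∑ i, a i) * M q ≠ N * (∑ i, α q i) + j * ((N + k) * M q))
    (hV : ∀ v : Fin (m + 1) → MvPolynomial (Fin (m + 1)) ℂ,
      (∀ i, (v i).IsWeightedHomogeneous a (a i)) → ∑ i, v i * pderiv i f0 = 0 →
        ∑ i, pderiv i (v i) = 0)
    (hh : h.IsWeightedHomogeneous a (N + k)) (hq : ∀ q, Sing f0 q → eval (pt q) h ≠ 0)
    {f : (Fin (m + 1) → ℂ) → ℂ} (hf : AnalyticAt ℂ f 0)
    (hO : ∀ z : Fin (m + 1) → ℂ,
      (fun t : ℂ => f (fun i => t ^ a i * z i) - (t ^ N * eval z f0 + t ^ (N + k) * eval z h))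
        =O[𝓝 0] (fun t : ℂ => ‖t‖ ^ (N + k + 1)))
    {b : Polynomial ℂ} (hb : IsBernstein f b) :
    ∀ s ∈ Candidates a N k f0 α M, b.eval s = 0 := by
  obtain ⟨h1, h2, h3⟩ := wle_yomdin hm ha haN hk hf0 hsec α M g hW hNR hV hh hq hf hO hb
  rintro s (rfl | rfl | ⟨q, hs, rfl⟩)
  · exact h1
  · exact h2
  · exact h3 q hs (hex q hs)

end Pool.Agent.Results.MP_6163c8_ag.IsolatedCone
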