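import Pool.Agent.helper61.DL.Exist

/-!
# Poles of the topological zeta function and roots of the Bernstein-Sato polynomial

Convenient polynomials with simplicial Newton boundary, arbitrary coefficients.
-/

open MvPolynomial Pool.Agent.helper14.Newton Pool.Agent.helper61.DL

namespace Pool.Agent.Results.MP_6163c8_ag.NewtonSimplicial

/-- Let `f` be convenient with `f(0) = 0` and suppose that the exponents of `f` on every compact
face of its Newton polyhedron are linearly independent. Then every pole of the Denef-Loeser
function of `f` (formed with any simplicial subdivisions of the dual cones) is a root of the local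
Bernstein-Sato polynomial of `f` at `0`. -/
theorem result {n : ℕ} (hn : 0 < n) (f : MvPolynomial (Fin n) ℂ) (hconv : Convenient f)
    (h0 : coeff 0 f = 0)
    (hsimp : ∀ w : Fin n → ℕ, (∀ i, 0 < w i) → Indep (face f w))
    (D : Finset (Fin n →₀ ℕ) → Finset (Finset (Fin n → ℕ)))
    (hD : ∀ G ∈ faces f, IsSubdivision f G (D G))
    (s₀ : ℂ) (hs : (ZDL f D).denom.IsRoot s₀)
    (b : Polynomial ℂ) (hb : IsBernstein (fun z => eval z f) b) :
    b.eval s₀ = 0 :=
  strong_simplicial hn f hconv h0 hsimp D hD s₀ hs b hb

end Pool.Agent.Results.MP_6163c8_ag.NewtonSimplicial
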